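import Pool.Agent.H17.MB.DimCore

/-!
MP_90715c_gt, the dichotomy: uniformly porous sets have dimension less than two.
-/

open Set Filter Topology MeasureTheory Metric

namespace Pool.Agent.H81.DI

theorem dimH_lt_two_of_porous {K : Set (OnePoint ℂ)}
    (h : ∃ ρ > (0 : ℝ), ∀ a : ℂ, ∀ r > (0 : ℝ), ∃ z : ℂ, ‖z - a‖ ≤ r ∧
      ∀ v : ℂ, ‖v - z‖ < ρ * r → (v : OnePoint ℂ) ∉ K) :
    dimH {z : ℂ | (z : OnePoint ℂ) ∈ K} < 2 := by
  obtain ⟨ρ, hρ, h⟩ := h
  set η : ℝ := min (ρ / 4) (1 / 2) with hη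
  have hη0 : 0 < η := lt_min (by positivity) (by norm_num)
  obtain ⟨δ, hδ, hd⟩ := Pool.Agent.H17.MB.Dm.porous_dim η hη0
  have h1 : ∀ n : ℕ, dimH ({z : ℂ | (z : OnePoint ℂ) ∈ K} ∩ closedBall 0 n) ≤
      ENNReal.ofReal (2 - δ) := by
    intro n
    refine hd _ (isBounded_closedBall.subset inter_subset_right) ?_
    rintro x - r ⟨hr, -⟩
    obtain ⟨z, hz, hz'⟩ := h x (r / 2) (by positivity)
    have e1 : η * r ≤ ρ / 4 * r := mul_le_mul_of_nonneg_right (min_le_left _ _) hr.le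
    have e2 : η * r ≤ 1 / 2 * r := mul_le_mul_of_nonneg_right (min_le_right _ _) hr.le
    refine ⟨z, ?_, ?_⟩
    · apply closedBall_subset_closedBall'
      rw [dist_eq_norm]
      linarith
    · rw [Set.disjoint_left]
      rintro v hv ⟨hvK, -⟩
      rw [mem_closedBall, dist_eq_norm] at hv
      refine hz' v ?_ hvK
      have : 0 < ρ * r := mul_pos hρ hr
      linarith
  have h2 : {z : ℂ | (z : OnePoint ℂ) ∈ K} =
      ⋃ n : ℕ, {z : ℂ | (z : OnePoint ℂ) ∈ K} ∩ closedBall 0 n := by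
    rw [← inter_iUnion, iUnion_closedBall_nat, inter_univ]
  rw [h2, dimH_iUnion]
  refine (iSup_le h1).trans_lt ?_
  rw [← ENNReal.ofReal_ofNat 2, ENNReal.ofReal_lt_ofReal_iff (by norm_num)]
  linarith

end Pool.Agent.H81.DI
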