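import Pool.Agent.H33.EF.NslJ

/-!
MP_90715c_gt, the dichotomy: topological transitivity on pairs.
-/

open Matrix Set Filter Topology

namespace Pool.Agent.H81.DI

open Pool.Agent.H90.WC Pool.Agent.H81.FG Pool.Agent.H81.TG Pool.Agent.H33.EF Pool.Agent.H33.GC

theorem pair_balls {Γ : Subgroup G} {p : ℂ} (hp : Gen Γ p) {q : ℂ} (hqp : q ≠ p)
    {X Y : ℂ} (hXY : X ≠ Y) {ρ0 : ℝ} (hρ0 : 0 < ρ0) :
    ∃ g ∈ Γ, (∃ x : ℂ, ‖x - X‖ < ρ0 ∧ act g (p : OnePoint ℂ) = (x : OnePoint ℂ)) ∧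
      ∃ y : ℂ, ‖y - Y‖ < ρ0 ∧ act g (q : OnePoint ℂ) = (y : OnePoint ℂ) := by
  have hδ : 0 < ‖q - p‖ := norm_pos_iff.2 (sub_ne_zero.2 hqp)
  have hXY' : 0 < ‖X - Y‖ := norm_pos_iff.2 (sub_ne_zero.2 hXY)
  set ρ : ℝ := min (ρ0 / 2) (min (‖X - Y‖ / 4) (‖q - p‖ / 4)) with hρ
  have hρpos : 0 < ρ := by
    rw [hρ]
    exact lt_min (by positivity) (lt_min (by positivity) (by positivity))
  have r1 : ρ ≤ ρ0 / 2 := min_le_left _ _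
  have r2 : ρ ≤ ‖X - Y‖ / 4 := (min_le_right _ _).trans (min_le_left _ _)
  have r3 : ρ ≤ ‖q - p‖ / 4 := (min_le_right _ _).trans (min_le_right _ _)
  obtain ⟨g, hg, h1, h2, h3, h4⟩ := hp X Y hXY ρ hρpos
  have n10 : 0 < ‖g 1 0‖ := (inv_pos.2 hρpos).trans h2
  have h10 : g 1 0 ≠ 0 := norm_pos_iff.1 n10
  have hgρ : 1 < ‖g 1 0‖ * ρ := by
    have := mul_lt_mul_of_pos_right h2 hρpos
    rwa [inv_mul_cancel₀ hρpos.ne'] at this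
  refine ⟨g, hg, ⟨mob g p, h3.trans_le (r1.trans (by linarith)), act_coe_of_ne h1⟩, ?_⟩
  have e1 := mob_sub g h10 h1
  have h5 : ‖X - Y‖ / 2 ≤ ‖mob g p - g 0 0 / g 1 0‖ := by
    have e : X - Y = (mob g p - g 0 0 / g 1 0) - (mob g p - X) + (g 0 0 / g 1 0 - Y) := by ring
    have h6 : ‖X - Y‖ ≤ ‖mob g p - g 0 0 / g 1 0‖ + ‖mob g p - X‖ + ‖g 0 0 / g 1 0 - Y‖ := by
      conv_lhs => rw [e]
      exact (norm_add_le _ _).trans (add_le_add (norm_sub_le _ _) le_rfl)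
    linarith
  have h6 : ‖g 1 0 * p + g 1 1‖ ≤ 1 / 2 := by
    rw [e1, norm_div, norm_neg, norm_one, norm_mul] at h5
    have hpos : 0 < ‖g 1 0‖ * ‖g 1 0 * p + g 1 1‖ := mul_pos n10 (norm_pos_iff.2 h1)
    rw [le_div_iff₀ hpos] at h5
    have h7 : 2 * ρ * (‖g 1 0‖ * ‖g 1 0 * p + g 1 1‖) ≤ 1 :=
      (mul_le_mul_of_nonneg_right (by linarith) hpos.le).trans h5
    have h8 : 0 ≤ ‖g 1 0 * p + g 1 1‖ := norm_nonneg _
    nlinarith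
  have h7 : 1 ≤ ‖g 1 0 * q + g 1 1‖ := by
    have e : g 1 0 * (q - p) = (g 1 0 * q + g 1 1) - (g 1 0 * p + g 1 1) := by ring
    have h8 : ‖g 1 0‖ * ‖q - p‖ ≤ ‖g 1 0 * q + g 1 1‖ + ‖g 1 0 * p + g 1 1‖ := by
      rw [← norm_mul, e]
      exact norm_sub_le _ _
    have h9 : ‖g 1 0‖ * (4 * ρ) ≤ ‖g 1 0‖ * ‖q - p‖ :=
      mul_le_mul_of_nonneg_left (by linarith) n10.le
    linarith
  have hzne : g 1 0 * q + g 1 1 ≠ 0 := norm_pos_iff.1 (by linarith)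
  refine ⟨mob g q, ?_, act_coe_of_ne hzne⟩
  have e2 := mob_sub g h10 hzne
  have h8 : ‖mob g q - g 0 0 / g 1 0‖ ≤ ρ := by
    rw [e2, norm_div, norm_neg, norm_one, norm_mul, div_le_iff₀ (by positivity)]
    have : ‖g 1 0‖ * ρ * 1 ≤ ‖g 1 0‖ * ρ * ‖g 1 0 * q + g 1 1‖ :=
      mul_le_mul_of_nonneg_left h7 (by positivity)
    linarith
  have e : mob g q - Y = (mob g q - g 0 0 / g 1 0) + (g 0 0 / g 1 0 - Y) := by ring
  rw [e]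
  have := norm_add_le (mob g q - g 0 0 / g 1 0) (g 0 0 / g 1 0 - Y)
  linarith

theorem exists_coe {U : Set (OnePoint ℂ)} (hU : IsOpen U) (hU' : U.Nonempty) :
    IsOpen (((↑) : ℂ → OnePoint ℂ) ⁻¹' U) ∧ (((↑) : ℂ → OnePoint ℂ) ⁻¹' U).Nonempty := by
  refine ⟨hU.preimage OnePoint.continuous_coe, ?_⟩
  obtain ⟨x, hx, X, rfl⟩ := OnePoint.denseRange_coe.inter_open_nonempty U hU hU'
  exact ⟨X, hx⟩

/-- the group is topologically transitive on pairs -/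
theorem trans {Γ : Subgroup G} (hgen : {p : ℂ | Gen Γ p} ∈ residual ℂ)
    {U V U₀ V₀ : Set (OnePoint ℂ)} (hU : IsOpen U) (hU' : U.Nonempty) (hV : IsOpen V)
    (hV' : V.Nonempty) (hU₀ : IsOpen U₀) (hU₀' : U₀.Nonempty) (hV₀ : IsOpen V₀)
    (hV₀' : V₀.Nonempty) :
    ∃ g ∈ Γ, (∃ x ∈ U, act g x ∈ U₀) ∧ ∃ y ∈ V, act g y ∈ V₀ := by
  obtain ⟨a1, a2⟩ := exists_coe hU hU'
  obtain ⟨b1, b2⟩ := exists_coe hV hV'
  obtain ⟨c1, X, hX⟩ := exists_coe hU₀ hU₀'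
  obtain ⟨d1, d2⟩ := exists_coe hV₀ hV₀'
  obtain ⟨p, hpU, hp⟩ := (dense_of_mem_residual hgen).inter_open_nonempty _ a1 a2
  obtain ⟨q, hqV, hqp⟩ := (dense_compl_singleton p).inter_open_nonempty _ b1 b2
  obtain ⟨Y, hY, hYX⟩ := (dense_compl_singleton X).inter_open_nonempty _ d1 d2
  obtain ⟨ε, hε, hball⟩ := Metric.isOpen_iff.1 c1 X hX
  obtain ⟨ε', hε', hball'⟩ := Metric.isOpen_iff.1 d1 Y hY
  obtain ⟨g, hg, ⟨x, hx, e⟩, y, hy, e'⟩ := pair_balls hp (q := q) hqp (X := X) (Y := Y)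
    (fun h => hYX h.symm) (lt_min hε hε')
  refine ⟨g, hg, ⟨p, hpU, ?_⟩, q, hqV, ?_⟩
  · rw [e]
    exact hball (mem_ball_iff_norm.2 (hx.trans_le (min_le_left _ _)))
  · rw [e']
    exact hball' (mem_ball_iff_norm.2 (hy.trans_le (min_le_right _ _)))

end Pool.Agent.H81.DI
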