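import Pool.Agent.H81.DI.Dense
import Pool.Agent.H81.DI.Trans
import Pool.Agent.H81.DI.DimP
import Pool.Agent.H33.EF.Final

/-!
MP_90715c_gt, the dichotomy: a wandering continuum is uniformly porous or everywhere fat.
-/

open Matrix Set Filter Topology MeasureTheory

namespace Pool.Agent.H81.DI

open Pool.Agent.H90.WC Pool.Agent.H81.FG Pool.Agent.H81.TG Pool.Agent.H33.EF Pool.Agent.H33.GC

/-- a nontrivial continuum has nontrivial connected pieces in the plane -/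
theorem exists_piece {K : Set (OnePoint ℂ)} (hK : IsCompact K) (hKp : IsPreconnected K)
    (hn : K.Nontrivial) :
    ∃ A : Set ℂ, IsPreconnected A ∧ (∀ z ∈ A, (z : OnePoint ℂ) ∈ K) ∧ ∃ a ∈ A, ∃ b ∈ A, a ≠ b := by
  obtain ⟨p', hp', hpi⟩ := hn.exists_ne OnePoint.infty
  obtain ⟨p, rfl⟩ : ∃ p : ℂ, (p : OnePoint ℂ) = p' := OnePoint.ne_infty_iff_exists.1 hpi
  obtain ⟨q, hq, hqp⟩ := hn.exists_ne (p : OnePoint ℂ)
  obtain ⟨s, hs, hqs⟩ : ∃ s > (0 : ℝ), q ∉ ((↑) : ℂ → OnePoint ℂ) '' Metric.ball p s := by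
    induction q using OnePoint.rec with
    | infty =>
      refine ⟨1, one_pos, ?_⟩
      rintro ⟨z, -, hz⟩
      exact OnePoint.coe_ne_infty _ hz
    | coe z =>
      refine ⟨dist z p, dist_pos.2 fun h => hqp (by rw [h]), ?_⟩
      rintro ⟨z', hz', e⟩
      rw [OnePoint.coe_injective e] at hz'
      exact lt_irrefl _ (Metric.mem_ball.1 hz')
  have hW : IsClosed (((↑) : ℂ → OnePoint ℂ) '' Metric.closedBall p s) :=
    ((isCompact_closedBall p s).image OnePoint.continuous_coe).isClosed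
  have hQ : IsClosed ((((↑) : ℂ → OnePoint ℂ) '' Metric.ball p s)ᶜ) :=
    (OnePoint.isOpenEmbedding_coe.isOpenMap _ Metric.isOpen_ball).isClosed_compl
  obtain ⟨κ, hκ, hκ1, hκ2, ⟨u, hu, hu'⟩, v, hv, hv'⟩ := bumping hK hKp hW
    (isClosed_singleton (x := (p : OnePoint ℂ))) hQ (by
      intro z _
      by_cases h : z ∈ ((↑) : ℂ → OnePoint ℂ) '' Metric.ball p s
      · exact Or.inl (image_mono Metric.ball_subset_closedBall h)
      · exact Or.inr (Or.inr h)) (by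
      rintro z - rfl h
      exact h ⟨p, Metric.mem_ball_self hs, rfl⟩) ⟨_, hp', rfl⟩ ⟨q, hq, hqs⟩
  have hinf : OnePoint.infty ∉ κ := by
    intro h
    obtain ⟨z, -, hz⟩ := (hκ h).2
    exact OnePoint.coe_ne_infty _ hz
  obtain ⟨-, hpre⟩ := finite_part hκ1 hκ2 hinf
  have hup : u = (p : OnePoint ℂ) := hu'
  rw [hup] at hu
  obtain ⟨v0, hv0, rfl⟩ := (hκ hv).2
  refine ⟨_, hpre, fun z hz => (hκ hz).1, p, hu, v0, hv, ?_⟩
  rintro rfl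
  exact hv' ⟨_, Metric.mem_ball_self hs, rfl⟩

/-- (P), the geometric part: uniformly porous -/
def Porous (K : Set (OnePoint ℂ)) : Prop :=
  ∃ ρ > (0 : ℝ), ∀ a : ℂ, ∀ r > (0 : ℝ), ∃ z : ℂ, ‖z - a‖ ≤ r ∧
    ∀ v : ℂ, ‖v - z‖ < ρ * r → (v : OnePoint ℂ) ∉ K

/-- (F), the geometric part: everywhere fat -/
def Fat (K : Set (OnePoint ℂ)) : Prop :=
  ∀ η > (0 : ℝ), ∃ M > (0 : ℝ), ∀ A : Set ℂ, IsPreconnected A →
    (∀ z ∈ A, (z : OnePoint ℂ) ∈ K) → ∀ a ∈ A, ∀ b ∈ A, ∀ s > (0 : ℝ), ∀ r > (0 : ℝ),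
      10 * s ≤ ‖b - a‖ → M * r ≤ s →
        ∃ w : ℂ, ‖w - a‖ = s ∧ ∀ v : ℂ, ‖v - w‖ ≤ r → ∃ u ∈ A, ‖u - v‖ ≤ η * r

theorem not_porous {K : Set (OnePoint ℂ)} (hK : IsCompact K) (hKp : IsPreconnected K)
    (hn : K.Nontrivial) (hF : Fat K) : ¬ Porous K := by
  rintro ⟨ρ, hρ, h⟩
  obtain ⟨A, hA, hAK, a, ha, b, hb, hab⟩ := exists_piece hK hKp hn
  obtain ⟨M, hM, hfat⟩ := hF (ρ / 2) (by positivity)
  have hba : 0 < ‖b - a‖ := norm_pos_iff.2 (sub_ne_zero.2 hab.symm)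
  have hr : 0 < ‖b - a‖ / 10 / M := by positivity
  obtain ⟨w, -, hw⟩ := hfat A hA hAK a ha b hb (‖b - a‖ / 10) (by positivity)
    (‖b - a‖ / 10 / M) hr (by linarith) (by
      have : M * (‖b - a‖ / 10 / M) = ‖b - a‖ / 10 := by field_simp
      exact this.le)
  obtain ⟨z, hz, hz'⟩ := h w _ hr
  obtain ⟨u, hu, huz⟩ := hw z hz
  refine hz' u (huz.trans_lt ?_) (hAK u hu)
  exact mul_lt_mul_of_pos_right (by linarith) hr

theorem dense_of_not_porous {K : Set (OnePoint ℂ)} (h : ¬ Porous K) (n : ℕ) :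
    ∃ a : ℂ, ∃ r > (0 : ℝ), ∀ z : ℂ, ‖z - a‖ ≤ r →
      ∃ v : ℂ, ‖v - z‖ < r / (n + 1) ∧ (v : OnePoint ℂ) ∈ K := by
  unfold Porous at h
  push Not at h
  obtain ⟨a, r, hr, h1⟩ := h (1 / ((n : ℝ) + 1)) (by positivity)
  refine ⟨a, r, hr, fun z hz => ?_⟩
  obtain ⟨v, hv, hvK⟩ := h1 z hz
  refine ⟨v, ?_, hvK⟩
  calc ‖v - z‖ < 1 / ((n : ℝ) + 1) * r := hv
    _ = r / (n + 1) := by ring

/-- few translates: pairs of small open sets are not joined -/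
theorem few {Γ : Subgroup G} (hgen : {p : ℂ | Gen Γ p} ∈ residual ℂ) {K : Set (OnePoint ℂ)}
    (hJ : ¬ Joins Γ K) {U V : Set (OnePoint ℂ)} (hU : IsOpen U) (hU' : U.Nonempty)
    (hV : IsOpen V) (hV' : V.Nonempty) :
    ∃ U' ⊆ U, ∃ V' ⊆ V, IsOpen U' ∧ U'.Nonempty ∧ IsOpen V' ∧ V'.Nonempty ∧
      {g : G | g ∈ Γ ∧ (∃ x ∈ K, act g x ∈ U') ∧ ∃ x ∈ K, act g x ∈ V'}.Finite := by
  unfold Joins at hJ
  push Not at hJ
  obtain ⟨U₀, V₀, hU₀, hU₀', hV₀, hV₀', Φ, hΦ, h1⟩ := hJ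
  obtain ⟨g, hg, ⟨x, hx, hgx⟩, y, hy, hgy⟩ := trans hgen hU hU' hV hV' hU₀ hU₀' hV₀ hV₀'
  refine ⟨U ∩ act g ⁻¹' U₀, inter_subset_left, V ∩ act g ⁻¹' V₀, inter_subset_left,
    hU.inter (hU₀.preimage (continuous_act g)), ⟨x, hx, hgx⟩,
    hV.inter (hV₀.preimage (continuous_act g)), ⟨y, hy, hgy⟩,
    (hΦ.image fun f => g⁻¹ * f).subset ?_⟩
  rintro h ⟨hh, ⟨k, hk, hkU⟩, k', hk', hkV⟩
  refine ⟨g * h, ?_, inv_mul_cancel_left _ _⟩
  by_contra hgΦ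
  refine h1 (g * h) (Γ.mul_mem hg hh) hgΦ ⟨k, hk, ?_⟩ k' hk' ?_
  · rw [act_mul]
    exact hkU.2
  · rw [act_mul]
    exact hkV.2

/-- (MAIN) -/
theorem dichotomy (Γ : Subgroup G) [DiscreteTopology Γ] [CompactSpace (G ⧸ Γ)] :
    ∃ E : Set ℂ, IsMeagre E ∧ volume E = 0 ∧
      ∀ K : Set (OnePoint ℂ), IsCompact K → IsConnected K → K.Nontrivial →
        {g : G | g ∈ Γ ∧ ∃ x ∈ K, act g x ∈ K}.Finite →
        Xor
          (Porous K ∧ dimH {z : ℂ | (z : OnePoint ℂ) ∈ K} < 2 ∧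
            (∀ p : ℂ, (p : OnePoint ℂ) ∈ K → p ∈ E) ∧
            ∀ U V : Set (OnePoint ℂ), IsOpen U → U.Nonempty → IsOpen V → V.Nonempty →
              ∃ U' ⊆ U, ∃ V' ⊆ V, IsOpen U' ∧ U'.Nonempty ∧ IsOpen V' ∧ V'.Nonempty ∧
                {g : G | g ∈ Γ ∧ (∃ x ∈ K, act g x ∈ U') ∧ ∃ x ∈ K, act g x ∈ V'}.Finite)
          (Fat K ∧
            (∀ 𝒪 : Set (Set (OnePoint ℂ)), 𝒪.Finite → (∀ U ∈ 𝒪, IsOpen U ∧ U.Nonempty) →
              {g : G | g ∈ Γ ∧ ∀ U ∈ 𝒪, ∃ x ∈ K, act g x ∈ U}.Infinite) ∧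
            ∀ p : ℂ, (p : OnePoint ℂ) ∈ K → (∃ u : ℂ, ∃ ε > (0 : ℝ), ∀ᶠ k : ℕ in atTop,
              ∀ z : ℂ, ‖z - (p + u / 4 ^ k)‖ < ε / 4 ^ k → (z : OnePoint ℂ) ∉ K) → p ∈ E) := by
  obtain ⟨C, hC, hcoc⟩ := coc_of_compact Γ
  obtain ⟨E2, k1, k2, k3⟩ := cone gen2 Γ
  refine ⟨{p : ℂ | Gen Γ p}ᶜ ∪ E2, ?_, ?_, ?_⟩
  · rw [IsMeagre, compl_union, compl_compl]
    exact inter_mem (gen_residual Γ) k1
  · exact measure_union_null (gen_ae Γ) k2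
  · intro K hK hKc hn hfin
    by_cases hJ : Joins Γ K
    · right
      have hfat : Fat K := fun η hη => everywhereJ hC hcoc hK hKc.isPreconnected hfin
        (fun g hg x hx hgx => ⟨hg, x, hx, hgx⟩) hKc.nonempty hJ hη
      have hnp := not_porous hK hKc.isPreconnected hn hfat
      have hall : JoinsAll Γ K := all_of_dense hC hcoc (gen_residual Γ) (dense_of_not_porous hnp)
      refine ⟨⟨hfat, fun 𝒪 h𝒪 hO hfin' => ?_, fun p hp hu =>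
        Or.inr (k3 K hK hKc.isPreconnected hn hfin p hp hu)⟩, fun h => hnp h.1⟩
      obtain ⟨g, hg, hgΦ, h1⟩ := hall 𝒪 h𝒪 hO _ hfin'
      exact hgΦ ⟨hg, h1⟩
    · left
      have hpor : Porous K := by
        by_contra hcon
        exact hJ (joins_of_all (all_of_dense hC hcoc (gen_residual Γ) (dense_of_not_porous hcon)))
      exact ⟨⟨hpor, dimH_lt_two_of_porous hpor, fun p hp => Or.inl fun hgen =>
        hJ (joins_of_gen hgen hp hn), fun U V hU hU' hV hV' =>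
          few (gen_residual Γ) hJ hU hU' hV hV'⟩,
        fun h => not_porous hK hKc.isPreconnected hn h.1 hpor⟩

end Pool.Agent.H81.DI
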