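import Pool.Agent.H33.EF.NslJ

/-!
MP_90715c_gt, the dichotomy: if `K` is more and more dense at a sequence of places and scales then
each finite family of open sets is met by translates of `K`.
-/

open Matrix Set Filter Topology MeasureTheory

namespace Pool.Agent.H81.DI

open Pool.Agent.H90.WC Pool.Agent.H81.FG Pool.Agent.H81.TG Pool.Agent.H33.EF Pool.Agent.H33.GC

/-- translates of `K` meet all sets of each finite family of open sets -/
def JoinsAll (Γ : Subgroup G) (K : Set (OnePoint ℂ)) : Prop :=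
  ∀ 𝒪 : Set (Set (OnePoint ℂ)), 𝒪.Finite → (∀ U ∈ 𝒪, IsOpen U ∧ U.Nonempty) →
    ∀ Φ : Set G, Φ.Finite → ∃ g ∈ Γ, g ∉ Φ ∧ ∀ U ∈ 𝒪, ∃ k ∈ K, act g k ∈ U

theorem joins_of_all {Γ : Subgroup G} {K : Set (OnePoint ℂ)} (h : JoinsAll Γ K) : Joins Γ K := by
  intro U V hU hU' hV hV' Φ hΦ
  obtain ⟨g, hg, hgΦ, h1⟩ := h {U, V} (by simp) (by
    rintro O (rfl | rfl)
    · exact ⟨hU, hU'⟩
    · exact ⟨hV, hV'⟩) Φ hΦ
  exact ⟨g, hg, hgΦ, h1 U (Or.inl rfl), h1 V (Or.inr rfl)⟩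

/-- translates of a neighbourhood of a generic point are almost everything -/
theorem meets_all {Γ : Subgroup G} {p : ℂ} (hp : Gen Γ p) {W : Set (OnePoint ℂ)}
    (hWo : IsOpen W) (hpW : (p : OnePoint ℂ) ∈ W) {𝒪 : Set (Set (OnePoint ℂ))} (h𝒪 : 𝒪.Finite)
    (hO : ∀ U ∈ 𝒪, IsOpen U ∧ U.Nonempty) {Φ : Set G} (hΦ : Φ.Finite) :
    ∃ g ∈ Γ, g ∉ Φ ∧ ∀ U ∈ 𝒪, ∃ k ∈ W, act g k ∈ U := by
  obtain ⟨B, hB⟩ : ∃ B : ℝ, ∀ g ∈ Φ, ‖g 1 0‖ ≤ B := by
    obtain ⟨B, hB⟩ := (hΦ.image fun g : G => ‖g 1 0‖).bddAbove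
    exact ⟨B, fun g hg => hB (mem_image_of_mem _ hg)⟩
  have hx : ∀ U ∈ 𝒪, ∃ x : ℂ, (x : OnePoint ℂ) ∈ U ∧ x ≠ 0 := by
    intro U hU
    obtain ⟨h1, h2⟩ := hO U hU
    obtain ⟨y, hy, X, rfl⟩ := OnePoint.denseRange_coe.inter_open_nonempty U h1 h2
    obtain ⟨x, hx1, hx2⟩ := (dense_compl_singleton (0 : ℂ)).inter_open_nonempty _
      (h1.preimage OnePoint.continuous_coe) ⟨X, hy⟩
    exact ⟨x, hx1, hx2⟩
  choose! x hxU hx0 using hx
  obtain ⟨δ, hδ, hxδ⟩ : ∃ δ > (0 : ℝ), ∀ U ∈ 𝒪, δ ≤ ‖x U‖ := by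
    rcases 𝒪.eq_empty_or_nonempty with h | h
    · exact ⟨1, one_pos, fun U hU => by rw [h] at hU; exact absurd hU (notMem_empty _)⟩
    · obtain ⟨V, hV, hVmin⟩ := h𝒪.exists_minimalFor (fun U => ‖x U‖) _ h
      refine ⟨‖x V‖, norm_pos_iff.2 (hx0 V hV), fun U hU => ?_⟩
      rcases le_total ‖x V‖ ‖x U‖ with h1 | h1
      · exact h1
      · exact hVmin hU h1
  obtain ⟨ε, hε, hball⟩ := Metric.isOpen_iff.1 (hWo.preimage OnePoint.continuous_coe) p hpW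
  have hB0 : 0 < max B 0 + 1 := by positivity
  set ρ : ℝ := min (1 / 4) (min (δ / 2) (min (ε / 4) (1 / (max B 0 + 1)))) with hρ
  have hρpos : 0 < ρ := by
    rw [hρ]
    exact lt_min (by norm_num) (lt_min (by positivity) (lt_min (by positivity) (by positivity)))
  have r1 : ρ ≤ 1 / 4 := min_le_left _ _
  have r2 : ρ ≤ δ / 2 := (min_le_right _ _).trans (min_le_left _ _)
  have r3 : ρ ≤ ε / 4 := ((min_le_right _ _).trans (min_le_right _ _)).trans (min_le_left _ _)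
  have r4 : ρ ≤ 1 / (max B 0 + 1) :=
    ((min_le_right _ _).trans (min_le_right _ _)).trans (min_le_right _ _)
  obtain ⟨g, hg, h1, h2, h3, h4⟩ := hp 1 0 one_ne_zero ρ hρpos
  have n10 : 0 < ‖g 1 0‖ := (inv_pos.2 hρpos).trans h2
  have h10 : g 1 0 ≠ 0 := norm_pos_iff.1 n10
  have hgρ : 1 < ‖g 1 0‖ * ρ := by
    have := mul_lt_mul_of_pos_right h2 hρpos
    rwa [inv_mul_cancel₀ hρpos.ne'] at this
  rw [sub_zero] at h4
  -- the pole is close to `p`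
  have hP : 1 / 2 ≤ ‖mob g p - g 0 0 / g 1 0‖ := by
    have e : (1 : ℂ) = (mob g p - g 0 0 / g 1 0) - (mob g p - 1) + g 0 0 / g 1 0 := by ring
    have h5 : ‖(1 : ℂ)‖ ≤ ‖mob g p - g 0 0 / g 1 0‖ + ‖mob g p - 1‖ + ‖g 0 0 / g 1 0‖ := by
      conv_lhs => rw [e]
      exact (norm_add_le _ _).trans (add_le_add (norm_sub_le _ _) le_rfl)
    rw [norm_one] at h5
    linarith
  have hp2 : ‖g 1 0‖ * ‖g 1 0 * p + g 1 1‖ ≤ 2 := by
    rw [mob_sub g h10 h1, norm_div, norm_neg, norm_one, norm_mul] at hP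
    have hpos : 0 < ‖g 1 0‖ * ‖g 1 0 * p + g 1 1‖ := mul_pos n10 (norm_pos_iff.2 h1)
    rw [le_div_iff₀ hpos] at hP
    linarith
  refine ⟨g, hg, ?_, ?_⟩
  · intro hmem
    have h5 := hB g hmem
    have h6 : ‖g 1 0‖ * ρ ≤ 1 := by
      calc ‖g 1 0‖ * ρ ≤ (max B 0 + 1) * (1 / (max B 0 + 1)) := by
            refine mul_le_mul ?_ r4 hρpos.le hB0.le
            have := le_max_left B 0
            linarith
        _ = 1 := by field_simp
    linarith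
  · intro U hU
    set y : ℂ := g 0 0 / g 1 0 - x U with hy
    have hyn : ρ ≤ ‖y‖ := by
      have h5 := hxδ U hU
      have h6 : ‖x U‖ ≤ ‖g 0 0 / g 1 0‖ + ‖y‖ := by
        have e : x U = g 0 0 / g 1 0 - y := by rw [hy]; ring
        conv_lhs => rw [e]
        exact norm_sub_le _ _
      linarith
    have hy0 : y ≠ 0 := norm_pos_iff.1 (hρpos.trans_le hyn)
    set w : ℂ := -(g 1 1 / g 1 0) + 1 / (g 1 0 ^ 2 * y) with hw
    have hden : g 1 0 * w + g 1 1 = 1 / (g 1 0 * y) := by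
      rw [hw]
      field_simp
      ring
    have hdne : g 1 0 * w + g 1 1 ≠ 0 := by
      rw [hden]
      exact one_div_ne_zero (mul_ne_zero h10 hy0)
    have hmob : mob g w = x U := by
      have h5 := mob_sub g h10 hdne
      rw [hden] at h5
      have h6 : -1 / (g 1 0 * (1 / (g 1 0 * y))) = -y := by
        field_simp
      rw [h6] at h5
      have e : mob g w = (mob g w - g 0 0 / g 1 0) + g 0 0 / g 1 0 := by ring
      rw [e, h5, hy]
      ring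
    refine ⟨(w : OnePoint ℂ), hball ?_, ?_⟩
    · rw [mem_ball_iff_norm]
      have e : g 1 0 * (w - p) = 1 / (g 1 0 * y) - (g 1 0 * p + g 1 1) := by
        rw [← hden]
        ring
      have h5 : ‖g 1 0‖ * ‖w - p‖ ≤ 1 / (‖g 1 0‖ * ‖y‖) + ‖g 1 0 * p + g 1 1‖ := by
        rw [← norm_mul, e]
        refine (norm_sub_le _ _).trans ?_
        rw [norm_div, norm_one, norm_mul]
      have h6 : ‖g 1 0‖ * (‖g 1 0‖ * ‖w - p‖) ≤ 1 / ρ + 2 := by
        calc ‖g 1 0‖ * (‖g 1 0‖ * ‖w - p‖)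
            ≤ ‖g 1 0‖ * (1 / (‖g 1 0‖ * ‖y‖) + ‖g 1 0 * p + g 1 1‖) :=
              mul_le_mul_of_nonneg_left h5 n10.le
          _ = 1 / ‖y‖ + ‖g 1 0‖ * ‖g 1 0 * p + g 1 1‖ := by
              have : 0 < ‖y‖ := norm_pos_iff.2 hy0
              field_simp
          _ ≤ 1 / ρ + 2 := add_le_add (one_div_le_one_div_of_le hρpos hyn) hp2
      have h7 : ‖w - p‖ ≤ (‖g 1 0‖ * ρ) * ((‖g 1 0‖ * ρ) * ‖w - p‖) := by
        have h8 : 0 ≤ ‖w - p‖ := norm_nonneg _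
        have h9 : 1 ≤ (‖g 1 0‖ * ρ) * (‖g 1 0‖ * ρ) := by nlinarith
        nlinarith
      have h8 : (‖g 1 0‖ * ρ) * ((‖g 1 0‖ * ρ) * ‖w - p‖) ≤ ρ + 2 * ρ ^ 2 := by
        calc (‖g 1 0‖ * ρ) * ((‖g 1 0‖ * ρ) * ‖w - p‖)
            = ρ ^ 2 * (‖g 1 0‖ * (‖g 1 0‖ * ‖w - p‖)) := by ring
          _ ≤ ρ ^ 2 * (1 / ρ + 2) := mul_le_mul_of_nonneg_left h6 (by positivity)
          _ = ρ + 2 * ρ ^ 2 := by
              field_simp
      nlinarith
    · rw [act_coe_of_ne hdne, hmob]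
      exact hxU U hU

/-- dense pieces at a sequence of places and scales -/
theorem all_of_dense {Γ : Subgroup G} {C : Set G} (hC : IsCompact C)
    (hcoc : ∀ g : G, ∃ γ ∈ Γ, γ * g ∈ C) (hgen : {p : ℂ | Gen Γ p} ∈ residual ℂ)
    {K : Set (OnePoint ℂ)}
    (h : ∀ n : ℕ, ∃ a : ℂ, ∃ r > (0 : ℝ), ∀ z : ℂ, ‖z - a‖ ≤ r →
      ∃ v : ℂ, ‖v - z‖ < r / (n + 1) ∧ (v : OnePoint ℂ) ∈ K) : JoinsAll Γ K := by
  choose a r hr hd using h
  choose γ hγ hdC using fun n => hcoc (fr (a n) (r n) (hr n))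
  set 𝒰 : Ultrafilter ℕ := Filter.hyperfilter ℕ with h𝒰
  have hle : (𝒰 : Filter ℕ) ≤ atTop := by
    rw [← Nat.cofinite_eq_atTop]
    exact Filter.hyperfilter_le_cofinite
  obtain ⟨d, -, hdl⟩ := hC.ultrafilter_le_nhds (𝒰.map fun n => γ n * fr (a n) (r n) (hr n))
    (by
      rw [Ultrafilter.coe_map, le_principal_iff, mem_map]
      exact Eventually.of_forall hdC)
  have hdt : Tendsto (fun n => γ n * fr (a n) (r n) (hr n)) 𝒰 (𝓝 d) := hdl
  intro 𝒪 h𝒪 hO Φ hΦ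
  -- the window
  set W : Set (OnePoint ℂ) := act d⁻¹ ⁻¹' (((↑) : ℂ → OnePoint ℂ) '' Metric.ball 0 1) with hW
  have hWo : IsOpen W :=
    (OnePoint.isOpenEmbedding_coe.isOpenMap _ Metric.isOpen_ball).preimage (continuous_act _)
  have hWn : W.Nonempty := by
    refine ⟨act d ((0 : ℂ) : OnePoint ℂ), 0, Metric.mem_ball_self one_pos, ?_⟩
    rw [act_inv_act]
  have hWc : IsOpen (((↑) : ℂ → OnePoint ℂ) ⁻¹' W) := hWo.preimage OnePoint.continuous_coe
  obtain ⟨p0, hp0⟩ : (((↑) : ℂ → OnePoint ℂ) ⁻¹' W).Nonempty := by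
    obtain ⟨x, hx, X, rfl⟩ := OnePoint.denseRange_coe.inter_open_nonempty W hWo hWn
    exact ⟨X, hx⟩
  obtain ⟨p, hpW, hp⟩ := (dense_of_mem_residual hgen).inter_open_nonempty _ hWc ⟨p0, hp0⟩
  -- points of the window come from points of `K`
  have key : ∀ (g : G) (k : OnePoint ℂ), k ∈ W → ∀ O : Set (OnePoint ℂ), IsOpen O →
      act g k ∈ O → ∀ᶠ n in 𝒰, ∃ x ∈ K, act (g * γ n) x ∈ O := by
    intro g k hk O hO hgk
    obtain ⟨u, hu, hku⟩ := hk
    rw [mem_ball_zero_iff] at hu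
    have hk' : act d (u : OnePoint ℂ) = k := by rw [hku, act_act_inv]
    have hv : ∀ n, ∃ v : ℂ, ‖v - (r n * u + a n)‖ < r n / (n + 1) ∧ (v : OnePoint ℂ) ∈ K := by
      intro n
      refine hd n _ ?_
      rw [add_sub_cancel_right, norm_mul, Complex.norm_real, Real.norm_of_nonneg (hr n).le]
      exact mul_le_of_le_one_right (hr n).le hu.le
    choose v hv1 hv2 using hv
    have hlim : Tendsto (fun n => (v n - a n) / r n) 𝒰 (𝓝 u) := by
      refine Tendsto.mono_left ?_ hle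
      rw [tendsto_iff_norm_sub_tendsto_zero]
      refine squeeze_zero (fun n => norm_nonneg _) (fun n => ?_)
        tendsto_one_div_add_atTop_nhds_zero_nat
      have hrn : (r n : ℂ) ≠ 0 := by exact_mod_cast (hr n).ne'
      have e : (v n - a n) / r n - u = (v n - (r n * u + a n)) / r n := by
        field_simp
        ring
      rw [e, norm_div, Complex.norm_real, Real.norm_of_nonneg (hr n).le, div_le_iff₀ (hr n)]
      have h1 := (hv1 n).le
      calc ‖v n - (r n * u + a n)‖ ≤ r n / (n + 1) := h1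
        _ = 1 / ((n : ℝ) + 1) * r n := by ring
    have hlim' : Tendsto (fun n => (((v n - a n) / r n : ℂ) : OnePoint ℂ)) 𝒰
        (𝓝 (u : OnePoint ℂ)) := (OnePoint.continuous_coe.tendsto u).comp hlim
    have h2 := tendsto_act hdt hlim'
    have h3 := ((continuous_act g).tendsto _).comp h2
    have h4 := h3.eventually (hO.mem_nhds (by rw [hk']; exact hgk))
    filter_upwards [h4] with n hn
    refine ⟨v n, hv2 n, ?_⟩
    have hrn : (r n : ℂ) ≠ 0 := by exact_mod_cast (hr n).ne'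
    have e1 : act (fr (a n) (r n) (hr n)) (((v n - a n) / r n : ℂ) : OnePoint ℂ) =
        (v n : OnePoint ℂ) := by
      rw [act_fr]
      congr 1
      field_simp
      ring
    have e2 : act (g * γ n) (v n : OnePoint ℂ) =
        act g (act (γ n * fr (a n) (r n) (hr n)) (((v n - a n) / r n : ℂ) : OnePoint ℂ)) := by
      rw [act_mul (γ n), e1, ← act_mul]
    rw [e2]
    exact hn
  by_cases hc : ∃ c : G, ∀ᶠ n in 𝒰, γ n = c
  · obtain ⟨c, hc⟩ := hc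
    obtain ⟨g, hg, hgΦ, h1⟩ := meets_all hp hWo hpW h𝒪 hO (hΦ.image fun f => f * c⁻¹)
    have h2 : ∀ᶠ n in 𝒰, ∀ U ∈ 𝒪, ∃ x ∈ K, act (g * γ n) x ∈ U := by
      rw [Filter.eventually_all_finite h𝒪]
      intro U hU
      obtain ⟨k, hk, hkU⟩ := h1 U hU
      exact key g k hk U (hO U hU).1 hkU
    obtain ⟨n, h3, h4⟩ := (h2.and hc).exists
    refine ⟨g * γ n, Γ.mul_mem hg (hγ n), ?_, h3⟩
    rw [h4]
    intro hmem
    exact hgΦ ⟨_, hmem, by group⟩
  · obtain ⟨g, hg, -, h1⟩ := meets_all hp hWo hpW h𝒪 hO finite_empty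
    have h2 : ∀ᶠ n in 𝒰, ∀ U ∈ 𝒪, ∃ x ∈ K, act (g * γ n) x ∈ U := by
      rw [Filter.eventually_all_finite h𝒪]
      intro U hU
      obtain ⟨k, hk, hkU⟩ := h1 U hU
      exact key g k hk U (hO U hU).1 hkU
    have h3 : ∀ᶠ n in 𝒰, g * γ n ∉ Φ := by
      by_contra hcon
      rw [Ultrafilter.eventually_not, not_not] at hcon
      have h5 : (⋃ f ∈ Φ, {n : ℕ | g * γ n = f}) ∈ 𝒰 := by
        filter_upwards [hcon] with n hn
        simp only [mem_iUnion, mem_setOf_eq]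
        exact ⟨_, hn, rfl⟩
      rw [Ultrafilter.finite_biUnion_mem_iff hΦ] at h5
      obtain ⟨f, -, hf⟩ := h5
      refine hc ⟨g⁻¹ * f, ?_⟩
      filter_upwards [hf] with n hn
      rw [← hn]
      group
    obtain ⟨n, h4, h5⟩ := (h2.and h3).exists
    exact ⟨g * γ n, Γ.mul_mem hg (hγ n), h5, h4⟩

end Pool.Agent.H81.DI
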