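import Pool.Agent.H33.EF.NslJ

/-!
MP_90715c_gt, the dichotomy: if the translates of `K` do not join all pairs of open sets then they
shrink at every generic point.
-/

open Matrix Set Filter Topology

namespace Pool.Agent.H81.DI

open Pool.Agent.H90.WC Pool.Agent.H81.FG Pool.Agent.H81.TG Pool.Agent.H33.EF Pool.Agent.H33.GC

theorem joins_of_image {Γ : Subgroup G} {K : Set (OnePoint ℂ)} {f : G} (hf : f ∈ Γ)
    (h : Joins Γ (act f '' K)) : Joins Γ K := by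
  intro U V hU hU' hV hV' Φ hΦ
  obtain ⟨g, hg, hgΦ, ⟨_, ⟨k, hk, rfl⟩, h1⟩, _, ⟨k', hk', rfl⟩, h2⟩ :=
    h U V hU hU' hV hV' _ (hΦ.image fun e => e * f⁻¹)
  refine ⟨g * f, Γ.mul_mem hg hf, fun hmem => hgΦ ⟨_, hmem, by group⟩, ⟨k, hk, ?_⟩, k', hk', ?_⟩
  · rw [act_mul]
    exact h1
  · rw [act_mul]
    exact h2

theorem notMem_of_gen {Γ : Subgroup G} {K : Set (OnePoint ℂ)} (hn : K.Nontrivial)
    (hJ : ¬ Joins Γ K) {p : ℂ} (hp : Gen Γ p) {f : G} (hf : f ∈ Γ) :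
    (p : OnePoint ℂ) ∉ act f '' K := by
  intro hmem
  have hinj : Function.Injective (act f) := by
    intro x y hxy
    rw [← act_inv_act f x, hxy, act_inv_act]
  exact hJ (joins_of_image hf (joins_of_gen hp hmem (hn.image hinj)))

/-- a strong contraction with source outside of a small ball around a generic point -/
theorem squeeze {Γ : Subgroup G} {p : ℂ} (hp : Gen Γ p) {U V : Set (OnePoint ℂ)}
    (hU : IsOpen U) (hU' : U.Nonempty) (hV : IsOpen V) (hV' : V.Nonempty) {ε : ℝ} (hε : 0 < ε) :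
    ∃ g ∈ Γ, act g (p : OnePoint ℂ) ∈ U ∧
      ∀ z : OnePoint ℂ, z ∉ ((↑) : ℂ → OnePoint ℂ) '' Metric.ball p ε → act g z ∈ V := by
  obtain ⟨_, hX, X, rfl⟩ := OnePoint.denseRange_coe.inter_open_nonempty U hU hU'
  obtain ⟨_, hY0, Y0, rfl⟩ := OnePoint.denseRange_coe.inter_open_nonempty V hV hV'
  obtain ⟨Y, hY, hYX⟩ := (dense_compl_singleton X).inter_open_nonempty _
    (hV.preimage OnePoint.continuous_coe) ⟨Y0, hY0⟩
  obtain ⟨e1, he1, hball1⟩ := Metric.isOpen_iff.1 (hU.preimage OnePoint.continuous_coe) X hX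
  obtain ⟨e2, he2, hball2⟩ := Metric.isOpen_iff.1 (hV.preimage OnePoint.continuous_coe) Y hY
  have hXY : X ≠ Y := fun h => hYX h.symm
  have hXY' : 0 < ‖X - Y‖ := norm_pos_iff.2 (sub_ne_zero.2 hXY)
  set ρ : ℝ := min (min e1 (e2 / 2)) (min (‖X - Y‖ / 4) (ε / 4)) with hρ
  have hρpos : 0 < ρ := by
    rw [hρ]
    exact lt_min (lt_min he1 (by positivity)) (lt_min (by positivity) (by positivity))
  have r0 : ρ ≤ e1 := (min_le_left _ _).trans (min_le_left _ _)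
  have r1 : ρ ≤ e2 / 2 := (min_le_left _ _).trans (min_le_right _ _)
  have r2 : ρ ≤ ‖X - Y‖ / 4 := (min_le_right _ _).trans (min_le_left _ _)
  have r3 : ρ ≤ ε / 4 := (min_le_right _ _).trans (min_le_right _ _)
  obtain ⟨g, hg, h1, h2, h3, h4⟩ := hp X Y hXY ρ hρpos
  have n10 : 0 < ‖g 1 0‖ := (inv_pos.2 hρpos).trans h2
  have h10 : g 1 0 ≠ 0 := norm_pos_iff.1 n10
  have hgρ : 1 < ‖g 1 0‖ * ρ := by
    have := mul_lt_mul_of_pos_right h2 hρpos
    rwa [inv_mul_cancel₀ hρpos.ne'] at this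
  refine ⟨g, hg, ?_, ?_⟩
  · rw [act_coe_of_ne h1]
    exact hball1 (mem_ball_iff_norm.2 (h3.trans_le r0))
  · intro z hz
    induction z using OnePoint.rec with
    | infty =>
      rw [act_infty, if_neg h10]
      exact hball2 (mem_ball_iff_norm.2 (h4.trans_le (r1.trans (by linarith))))
    | coe z =>
      have hzp : ε ≤ ‖z - p‖ := by
        by_contra hcon
        exact hz ⟨z, mem_ball_iff_norm.2 (not_le.1 hcon), rfl⟩
      have e1' := mob_sub g h10 h1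
      have h5 : ‖X - Y‖ / 2 ≤ ‖mob g p - g 0 0 / g 1 0‖ := by
        have e : X - Y = (mob g p - g 0 0 / g 1 0) - (mob g p - X) + (g 0 0 / g 1 0 - Y) := by
          ring
        have h6 : ‖X - Y‖ ≤ ‖mob g p - g 0 0 / g 1 0‖ + ‖mob g p - X‖ + ‖g 0 0 / g 1 0 - Y‖ := by
          conv_lhs => rw [e]
          exact (norm_add_le _ _).trans (add_le_add (norm_sub_le _ _) le_rfl)
        linarith
      have h6 : ‖g 1 0 * p + g 1 1‖ ≤ 1 / 2 := by
        rw [e1', norm_div, norm_neg, norm_one, norm_mul] at h5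
        have hpos : 0 < ‖g 1 0‖ * ‖g 1 0 * p + g 1 1‖ := mul_pos n10 (norm_pos_iff.2 h1)
        rw [le_div_iff₀ hpos] at h5
        have h7 : 2 * ρ * (‖g 1 0‖ * ‖g 1 0 * p + g 1 1‖) ≤ 1 :=
          (mul_le_mul_of_nonneg_right (by linarith) hpos.le).trans h5
        have h8 : 0 ≤ ‖g 1 0 * p + g 1 1‖ := norm_nonneg _
        nlinarith
      have h7 : 1 ≤ ‖g 1 0 * z + g 1 1‖ := by
        have e : g 1 0 * (z - p) = (g 1 0 * z + g 1 1) - (g 1 0 * p + g 1 1) := by ring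
        have h8 : ‖g 1 0‖ * ‖z - p‖ ≤ ‖g 1 0 * z + g 1 1‖ + ‖g 1 0 * p + g 1 1‖ := by
          rw [← norm_mul, e]
          exact norm_sub_le _ _
        have h9 : ‖g 1 0‖ * (4 * ρ) ≤ ‖g 1 0‖ * ‖z - p‖ :=
          mul_le_mul_of_nonneg_left (by linarith) n10.le
        linarith
      have hzne : g 1 0 * z + g 1 1 ≠ 0 := norm_pos_iff.1 (by linarith)
      rw [act_coe_of_ne hzne]
      apply hball2
      rw [mem_ball_iff_norm]
      have e2' := mob_sub g h10 hzne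
      have h8 : ‖mob g z - g 0 0 / g 1 0‖ ≤ ρ := by
        rw [e2', norm_div, norm_neg, norm_one, norm_mul, div_le_iff₀ (by positivity)]
        have : ‖g 1 0‖ * ρ * 1 ≤ ‖g 1 0‖ * ρ * ‖g 1 0 * z + g 1 1‖ :=
          mul_le_mul_of_nonneg_left h7 (by positivity)
        linarith
      have e : mob g z - Y = (mob g z - g 0 0 / g 1 0) + (g 0 0 / g 1 0 - Y) := by ring
      rw [e]
      have := norm_add_le (mob g z - g 0 0 / g 1 0) (g 0 0 / g 1 0 - Y)
      linarith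

/-- translates shrink at generic points -/
theorem shrink {Γ : Subgroup G} {K : Set (OnePoint ℂ)} (hK : IsCompact K) (hn : K.Nontrivial)
    (hJ : ¬ Joins Γ K) {p : ℂ} (hp : Gen Γ p) {U : Set (OnePoint ℂ)} (hU : IsOpen U)
    (hpU : (p : OnePoint ℂ) ∈ U) :
    ∃ U' : Set (OnePoint ℂ), IsOpen U' ∧ (p : OnePoint ℂ) ∈ U' ∧
      ∀ g ∈ Γ, (∃ x ∈ K, act g x ∈ U') → ∀ x ∈ K, act g x ∈ U := by
  have hJ' := hJ
  unfold Joins at hJ'
  push Not at hJ'
  obtain ⟨U₀, V₀, hU₀, hU₀', hV₀, hV₀', Φ, hΦ, h1⟩ := hJ'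
  obtain ⟨ε, hε, hball⟩ := Metric.isOpen_iff.1 (hU.preimage OnePoint.continuous_coe) p hpU
  obtain ⟨g, hg, hgp, hout⟩ := squeeze hp hU₀ hU₀' hV₀ hV₀' hε
  set Ψ : Set G := {f : G | f ∈ Γ ∧ g * f ∈ Φ} with hΨ
  have hΨf : Ψ.Finite := by
    refine (hΦ.image fun f => g⁻¹ * f).subset ?_
    rintro f ⟨-, hf⟩
    exact ⟨_, hf, inv_mul_cancel_left _ _⟩
  have hcl : IsClosed (⋃ f ∈ Ψ, act f '' K) :=
    hΨf.isClosed_biUnion fun f _ => (hK.image (continuous_act f)).isClosed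
  refine ⟨((((↑) : ℂ → OnePoint ℂ) '' Metric.ball p ε) ∩ act g ⁻¹' U₀) ∩
    (⋃ f ∈ Ψ, act f '' K)ᶜ, ?_, ⟨⟨⟨p, Metric.mem_ball_self hε, rfl⟩, hgp⟩, ?_⟩, ?_⟩
  · exact ((OnePoint.isOpenEmbedding_coe.isOpenMap _ Metric.isOpen_ball).inter
      (hU₀.preimage (continuous_act g))).inter hcl.isOpen_compl
  · simp only [mem_compl_iff, mem_iUnion, not_exists]
    intro f hf
    exact notMem_of_gen hn hJ hp hf.1
  · rintro f hf ⟨x, hx, ⟨-, hxU₀⟩, hxc⟩ y hy
    by_contra hyU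
    have hyb : act f y ∉ ((↑) : ℂ → OnePoint ℂ) '' Metric.ball p ε := by
      rintro ⟨z, hz, e⟩
      exact hyU (by rw [← e]; exact hball hz)
    have hfΦ : g * f ∈ Φ := by
      by_contra hcon
      refine h1 (g * f) (Γ.mul_mem hg hf) hcon ⟨x, hx, ?_⟩ y hy ?_
      · rw [act_mul]
        exact hxU₀
      · rw [act_mul]
        exact hout _ hyb
    refine hxc ?_
    simp only [mem_iUnion]
    exact ⟨f, ⟨hf, hfΦ⟩, x, hx, rfl⟩

end Pool.Agent.H81.DI
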